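import Mathlib
import Pool.Agent.H20.TB.Types
import Pool.Agent.H20.TB.Exp

/-!
# The commutant of a strongly irreducible representation
-/

set_option autoImplicit false
set_option linter.unusedSectionVars false

namespace Pool.Agent.H20.TC

open Module Polynomial Pool.Agent.H20.TB

noncomputable section

variable {k V : Type} [Field k] [CharZero k] [AddCommGroup V] [Module k V]
  [FiniteDimensional k V]

theorem commute_aeval {A B : End k V} (h : Commute A B) (P : k[X]) : Commute A (aeval B P) := by
  induction P using Polynomial.induction_on' with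
  | add a b ha hb => rw [map_add]; exact ha.add_right hb
  | monomial n a =>
    rw [aeval_monomial]
    exact (Algebra.commute_algebraMap_right _ _).mul_right (h.pow_right n)

/-- Endomorphisms which commute with a positive power of the exponential commute with `N`. -/
theorem exp_commute {u N : End k V} {d : ℕ} (h : IsExp u N d) {A : End k V} {e : ℕ}
    (he : 0 < e) (hA : Commute A (u ^ e)) : Commute A N := by
  by_cases hd : 1 < d
  · let U : Submodule k (End k V) := LinearMap.ker (LinearMap.mulLeft k A - LinearMap.mulRight k A)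
    have hU : ∀ X, X ∈ U ↔ A * X = X * A := by
      intro X
      rw [LinearMap.mem_ker, LinearMap.sub_apply, LinearMap.mulLeft_apply,
        LinearMap.mulRight_apply, sub_eq_zero]
    have h1 := coeff_mem (U := U) (d := d)
      (fun i => ((e : k) ^ i * ((i.factorial : ℕ) : k)⁻¹) • N ^ i) (fun m => by
      have h2 : u ^ (e * m) ∈ U := by
        rw [hU, pow_mul]
        exact (hA.pow_right m).eq
      rw [h.2] at h2
      refine (congrArg (· ∈ U) (Finset.sum_congr rfl fun i _ => ?_)).mp h2
      rw [smul_smul]
      congr 1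
      push_cast
      ring) 1 hd
    beta_reduce at h1
    rw [pow_one, pow_one, Nat.factorial_one, Nat.cast_one, inv_one, mul_one] at h1
    have he' : (e : k) ≠ 0 := Nat.cast_ne_zero.2 he.ne'
    have h2 := U.smul_mem (e : k)⁻¹ h1
    rw [smul_smul, inv_mul_cancel₀ he', one_smul] at h2
    exact (hU N).1 h2
  · have h1 : N = 0 := by
      have h2 : N ^ 1 = N ^ d * N ^ (1 - d) := by
        rw [← pow_add]
        congr 1
        omega
      rw [h.1, zero_mul, pow_one] at h2
      exact h2
    rw [h1]
    exact Commute.zero_right A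

/-- The degree of the field generated by an endomorphism divides the dimensions of the stable
subspaces. -/
theorem dvd_of_stable {A : End k V} {p : k[X]} (hp : Irreducible p) (hA : aeval A p = 0)
    {W : Submodule k V} (hW : St A W) : p.natDegree ∣ finrank k W := by
  have : Fact (Irreducible p) := ⟨hp⟩
  let A' : End k W := A.restrict hW
  have hA' : aeval A' p = 0 := by
    have h1 : ∀ (q : k[X]) (w : W), ((aeval A' q) w : V) = (aeval A q) w := by
      intro q w
      induction q using Polynomial.induction_on' with
      | add a b ha hb =>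
        rw [map_add, map_add, LinearMap.add_apply, LinearMap.add_apply, Submodule.coe_add, ha, hb]
      | monomial n a =>
        rw [aeval_monomial, aeval_monomial, Module.End.mul_apply, Module.End.mul_apply,
          Module.algebraMap_end_apply, Module.algebraMap_end_apply, Submodule.coe_smul]
        congr 1
        induction n generalizing w with
        | zero => rfl
        | succ n ih =>
          rw [pow_succ, pow_succ, Module.End.mul_apply, Module.End.mul_apply, ih]
          rfl
    refine LinearMap.ext fun w => Subtype.ext ?_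
    rw [h1, hA]
    rfl
  let φ : AdjoinRoot p →+* End k W := Ideal.Quotient.lift (Ideal.span {p})
    (aeval A' : k[X] →ₐ[k] End k W).toRingHom (by
      intro a ha
      obtain ⟨c, rfl⟩ := Ideal.mem_span_singleton'.1 ha
      change aeval A' (c * p) = 0
      rw [map_mul, hA', mul_zero])
  have hφ : ∀ q : k[X], φ (AdjoinRoot.mk p q) = aeval A' q := fun q => rfl
  let _ : Module (AdjoinRoot p) W := Module.compHom W φ
  have hsm : ∀ (z : AdjoinRoot p) (w : W), z • w = φ z w := fun z w => rfl
  have : IsScalarTower k (AdjoinRoot p) W := ⟨fun c z w => by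
    rw [hsm, hsm]
    obtain ⟨q, rfl⟩ := AdjoinRoot.mk_surjective z
    have h1 : c • AdjoinRoot.mk p q = AdjoinRoot.mk p (c • q) := rfl
    rw [h1, hφ, hφ, map_smul, LinearMap.smul_apply]⟩
  have h1 : finrank k (AdjoinRoot p) = p.natDegree := by
    rw [(AdjoinRoot.powerBasis hp.ne_zero).finrank, AdjoinRoot.powerBasis_dim]
  have h2 := Module.finrank_mul_finrank k (AdjoinRoot p) W
  rw [← h2, h1]
  exact Dvd.intro _ rfl

variable {Γ : Type} [Group Γ] (ρ : Representation k Γ V)

/-- The commutant of a strongly irreducible representation consists of the scalars if its degree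
does not divide certain dimensions. -/
theorem commutant {Δ : Subgroup Γ} (hΔ : Δ.FiniteIndex)
    (hirr : ∀ U : Submodule k V, (∀ g ∈ Δ, ∀ u ∈ U, ρ g u ∈ U) → U = ⊥ ∨ U = ⊤)
    (hC : ∀ r : ℕ, r.Prime → r ∣ finrank k V →
      (∃ (τ : Γ) (N : End k V) (D m : ℕ), IsExp (ρ τ) N D ∧ ¬ r ∣ jb N ⊤ m) ∨
      ∃ γ : Γ, ∀ e : ℕ, 0 < e → ∃ P : k[X],
        ¬ r ∣ finrank k (LinearMap.ker (aeval (ρ (γ ^ e)) P)))
    (A : End k V) (hA : ∀ g ∈ Δ, ∀ x, A (ρ g x) = ρ g (A x)) : ∃ c : k, ∀ v, A v = c • v := by
  classical
  by_cases h0 : ∃ v : V, v ≠ 0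
  swap
  · push Not at h0
    exact ⟨0, fun v => by rw [h0 v, map_zero, smul_zero]⟩
  obtain ⟨v₀, hv₀⟩ := h0
  have hint : IsIntegral k A := Algebra.IsIntegral.isIntegral A
  set p := minpoly k A with hp
  have hp0 : p ≠ 0 := minpoly.ne_zero hint
  have hpA : aeval A p = 0 := minpoly.aeval k A
  have hcomm : ∀ (q : k[X]), ∀ g ∈ Δ, ∀ x, aeval A q (ρ g x) = ρ g (aeval A q x) := by
    intro q g hg x
    have h1 : Commute A (ρ g) := LinearMap.ext fun x => hA g hg x
    exact LinearMap.congr_fun (commute_aeval h1.symm q).symm.eq x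
  have hirred : Irreducible p := by
    refine ⟨fun hu => ?_, fun a b hab => ?_⟩
    · obtain ⟨c, hc, hcp⟩ := Polynomial.isUnit_iff.1 hu
      rw [← hcp, aeval_C, Module.algebraMap_end_eq_smul_id] at hpA
      have h1 := LinearMap.congr_fun hpA v₀
      rw [LinearMap.smul_apply, LinearMap.id_apply, LinearMap.zero_apply, smul_eq_zero] at h1
      rcases h1 with h1 | h1
      · exact hc.ne_zero h1
      · exact hv₀ h1
    · have h1 := hirr (LinearMap.ker (aeval A a)) (fun g hg u hu => by
        rw [LinearMap.mem_ker] at hu ⊢
        rw [hcomm a g hg, hu, map_zero])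
      have ha0 : a ≠ 0 := fun h => hp0 (by rw [hab, h, zero_mul])
      have hb0 : b ≠ 0 := fun h => hp0 (by rw [hab, h, mul_zero])
      rcases h1 with h1 | h1
      · -- then `b (A) = 0`
        left
        have h2 : aeval A b = 0 := by
          refine LinearMap.ext fun v => ?_
          have h3 : (aeval A b) v ∈ LinearMap.ker (aeval A a) := by
            rw [LinearMap.mem_ker, ← Module.End.mul_apply, ← map_mul, ← hab, hpA]
            rfl
          rw [h1, Submodule.mem_bot] at h3
          exact h3
        have h3 : p ∣ b := minpoly.dvd k A h2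
        obtain ⟨c, hc⟩ := h3
        rw [hab] at hc
        have h4 : b * 1 = b * (a * c) := by linear_combination hc
        have h5 := mul_left_cancel₀ hb0 h4
        exact IsUnit.of_mul_eq_one _ h5.symm
      · right
        have h2 : aeval A a = 0 := LinearMap.ker_eq_top.1 h1
        have h3 : p ∣ a := minpoly.dvd k A h2
        obtain ⟨c, hc⟩ := h3
        rw [hab] at hc
        have h4 : a * 1 = a * (b * c) := by linear_combination hc
        have h5 := mul_left_cancel₀ ha0 h4
        exact IsUnit.of_mul_eq_one _ h5.symm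
  -- the degree
  have hdeg : p.natDegree = 1 := by
    by_contra hne
    obtain ⟨r, hr, hrp⟩ := Nat.exists_prime_and_dvd hne
    have h1 : ∀ {W : Submodule k V}, St A W → r ∣ finrank k W := fun hW =>
      hrp.trans (dvd_of_stable hirred hpA hW)
    have h2 : r ∣ finrank k V := by
      have h3 := h1 (W := ⊤) (fun _ _ => trivial)
      rwa [finrank_top] at h3
    rcases hC r hr h2 with ⟨τ, N, D, m, hN, hm⟩ | ⟨γ, hγ⟩
    · apply hm
      obtain ⟨M, hM0, -, hM⟩ := Subgroup.exists_pow_mem_of_index_ne_zero hΔ.index_ne_zero τ
      have h3 : Commute A N := by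
        refine exp_commute hN hM0 (LinearMap.ext fun x => ?_)
        rw [← map_pow]
        exact hA _ hM x
      have h4 : ∀ m, r ∣ rk N ⊤ m := by
        intro m
        refine h1 ?_
        rintro _ ⟨x, -, rfl⟩
        refine ⟨A x, trivial, ?_⟩
        exact (LinearMap.congr_fun (h3.pow_right m).eq x).symm
      unfold jb
      exact Nat.dvd_sub (Nat.dvd_add (h4 _) (h4 _)) (Dvd.dvd.mul_left (h4 _) 2)
    · obtain ⟨M, hM0, -, hM⟩ := Subgroup.exists_pow_mem_of_index_ne_zero hΔ.index_ne_zero γ
      obtain ⟨P, hP⟩ := hγ M hM0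
      apply hP
      refine h1 fun x hx => ?_
      rw [LinearMap.mem_ker] at hx ⊢
      have h3 : Commute A (ρ (γ ^ M)) := LinearMap.ext fun x => hA _ hM x
      have h4 : Commute A (aeval (ρ (γ ^ M)) P) := commute_aeval h3 P
      have h5 := LinearMap.congr_fun h4.eq x
      rw [Module.End.mul_apply, Module.End.mul_apply, hx, map_zero] at h5
      exact h5.symm
  have hmon : p.Monic := minpoly.monic hint
  have h1 := hmon.eq_X_add_C hdeg
  refine ⟨-p.coeff 0, fun v => ?_⟩
  rw [h1, map_add, aeval_X, aeval_C] at hpA
  have h2 := LinearMap.congr_fun hpA v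
  rw [LinearMap.add_apply, Module.algebraMap_end_apply, LinearMap.zero_apply] at h2
  rw [neg_smul]
  exact eq_neg_of_add_eq_zero_left h2

end

end Pool.Agent.H20.TC
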