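import Mathlib
import Pool.Agent.H20.TB.Defs
import Pool.Agent.H4.HW.Def

/-!
# Definitions: summands whose representation is controlled by local monodromy
-/

set_option autoImplicit false

namespace Pool.Agent.H20.TC

open Module Polynomial Pool.Agent.H20.TB

noncomputable section

/-- Let `b m` be the number of Jordan blocks of length `m + 1`.  The blocks exclude nondegenerate
subspaces of dimension `d`, for a form with the sign `ε` (`1` if it is symmetric and `-1` if it is
alternating): `d` is not the sum of the lengths of a subfamily of the blocks which contains an even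
number of blocks of each even length if `ε = 1`, and of each odd length if `ε = -1`. -/
def ExcludesSigned (ε : ℚ) (n : ℕ) (b : ℕ → ℕ) (d : ℕ) : Prop :=
  ¬ ∃ c : ℕ → ℕ, (∀ m, c m ≤ b m ∧ (ε * (-1) ^ m = -1 → Even (c m))) ∧ total n c = d

variable {ℓ : ℕ} [Fact ℓ.Prime] {V : Type} [AddCommGroup V] [Module ℚ_[ℓ] V]
  {Γ : Type} [Group Γ]

section unipotent

variable (ρ : Representation ℚ_[ℓ] Γ V) (χ : Γ →* ℚ_[ℓ])

/-- Some element of `Γ` acts unipotently, and the lengths of its Jordan blocks exclude nondegenerate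
subspaces of dimension `d`. -/
def UnipotentExcludesSigned (ε : ℚ) (d : ℕ) : Prop :=
  ∃ τ N, χ τ = 1 ∧ IsExpOf (ρ τ) N ∧ ExcludesSigned ε (finrank ℚ_[ℓ] V) (blocks N) d

/-- The number `r` does not divide the number of Jordan blocks of some length of some element of `Γ`
which acts unipotently, or for some `γ` and all `e > 0` it does not divide the dimension of the
kernel of some polynomial in `γ ^ e` (for instance `γ ^ e` has a simple eigenvalue in `ℚ_ℓ`). -/
def NotMultiple (r : ℕ) : Prop :=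
  (∃ τ N m, IsExpOf (ρ τ) N ∧ ¬ r ∣ blocks N m) ∨
    ∃ γ, ∀ e : ℕ, 0 < e → ∃ P : ℚ_[ℓ][X],
      ¬ r ∣ finrank ℚ_[ℓ] (LinearMap.ker (aeval (ρ (γ ^ e)) P))

end unipotent

section summand

open Matrix Pool.Agent.H4.HW

variable {T B : Type} [Fintype T] [DecidableEq T] (M : Betti T B)

/-- `r` is the representation on the summand `M_b`, `j` being the inclusion of its space `V`, and `χ` is
the similitude character of the form on `M_b`. -/
structure OnSummand (ρ : Γ →* Matrix T T ℚ_[ℓ]) (b : B) (j : V →ₗ[ℚ_[ℓ]] (T → ℚ_[ℓ]))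
    (r : Representation ℚ_[ℓ] Γ V) (χ : Γ →* ℚ_[ℓ]) : Prop where
  inj : Function.Injective j
  mem : ∀ y, (∃ x, j x = y) ↔ ∀ t, M.blk t ≠ b → y t = 0
  rep : ∀ g x, j (r g x) = ρ g *ᵥ j x
  sim : ∀ g, χ g = (ρ g M.o M.o) ^ (M.wt b)

/-- The lengths of the Jordan blocks of unipotent elements, and some characteristic polynomials, exclude
the dimensions of isotropic and nondegenerate subspaces (`ε` is the sign of the form) and the degrees of
fields of endomorphisms. -/
structure Controls [FiniteDimensional ℚ_[ℓ] V] (r : Representation ℚ_[ℓ] Γ V) (χ : Γ →* ℚ_[ℓ])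
    (ε : ℚ) : Prop where
  iso : ∀ d, 0 < d → 2 * d ≤ finrank ℚ_[ℓ] V → DegreeExcludes r d ∨ PlaceExcludes r χ d
  nondeg : ∀ d, 0 < d → 2 * d ≤ finrank ℚ_[ℓ] V → (ε = -1 → Even d) →
    DegreeExcludes r d ∨ UnipotentExcludesSigned r χ ε d
  scalars : ∀ p : ℕ, p.Prime → p ∣ finrank ℚ_[ℓ] V → NotMultiple r p

/-- The summand `M_b`, with the sign `ε` of its form, is controlled by Jordan blocks. -/
def IsControlled (ρ : Γ →* Matrix T T ℚ_[ℓ]) (b : B) : Prop :=
  ∃ (V : Type) (_ : AddCommGroup V) (_ : Module ℚ_[ℓ] V) (_ : FiniteDimensional ℚ_[ℓ] V)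
    (j : V →ₗ[ℚ_[ℓ]] (T → ℚ_[ℓ])) (r : Representation ℚ_[ℓ] Γ V) (χ : Γ →* ℚ_[ℓ]) (ε : ℚ),
    OnSummand M ρ b j r χ ∧ ((ε = 1 ∨ ε = -1) ∧ ∀ s t, M.blk s = b → M.E t s = ε * M.E s t) ∧
    Controls r χ ε

end summand

end

end Pool.Agent.H20.TC
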