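import Mathlib
import Pool.Agent.H20.TB.Strong

/-!
# Jordan blocks on subspaces of a space with a symmetric or alternating form
-/

set_option autoImplicit false
set_option linter.unusedSectionVars false

namespace Pool.Agent.H20.TC

open Module Pool.Agent.H20.TB

noncomputable section

variable {k V : Type} [Field k] [AddCommGroup V] [Module k V] [FiniteDimensional k V]

section form

variable (ω : V →ₗ[k] V →ₗ[k] k) {ε : k} (hε : ε = 1 ∨ ε = -1) (hs : ∀ u v, ω u v = ε * ω v u)

include hε in
theorem eps_ne : ε ≠ 0 := by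
  rcases hε with h | h <;> rw [h]
  · exact one_ne_zero
  · exact neg_ne_zero.2 one_ne_zero

include hs in
theorem refl : LinearMap.BilinForm.IsRefl ω := by
  intro u v h
  rw [hs, h, mul_zero]

include hs in
/-- a nondegenerate subspace -/
theorem isCompl_orth {X : Submodule k V} (hX : ∀ x ∈ X, (∀ y ∈ X, ω y x = 0) → x = 0) :
    IsCompl X (orth ω X) := by
  have h := LinearMap.BilinForm.isCompl_orthogonal_of_restrict_nondegenerate
    (B := ω) (refl ω hs) (W := X) ⟨?_, ?_⟩
  · exact h
  · intro x hx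
    refine Subtype.ext (hX x x.2 fun y hy => ?_)
    have h1 : ω x y = 0 := hx ⟨y, hy⟩
    rw [hs, h1, mul_zero]
  · intro x hx
    exact Subtype.ext (hX x x.2 fun y hy => hx ⟨y, hy⟩)

include hs in
theorem finrank_orth (hnd : ∀ u, (∀ v, ω v u = 0) → u = 0) (U : Submodule k V) :
    finrank k U + finrank k (orth ω U) = finrank k V := by
  have h1 := LinearMap.BilinForm.finrank_orthogonal (B := ω) ⟨fun x hx => hnd x fun v => by
    rw [hs, hx v, mul_zero], fun x hx => hnd x hx⟩ U
  have h2 : LinearMap.BilinForm.orthogonal ω U = orth ω U := rfl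
  rw [h2] at h1
  have h3 := Submodule.finrank_le U
  omega

include hs in
/-- The rank of `N ^ m` on a nondegenerate subspace is even for `m` of one parity. -/
theorem even_rk [CharZero k] {N : End k V} (hN : ∀ x y, ω (N x) y + ω x (N y) = 0)
    {U : Submodule k V} (h : St N U) (hU : ∀ x ∈ U, (∀ y ∈ U, ω y x = 0) → x = 0) {m : ℕ}
    (hm : ε * (-1) ^ m = -1) : Even (rk N U m) := by
  classical
  let M : Submodule k V := U.map (N ^ m)
  let g : U →ₗ[k] M := ((N ^ m).domRestrict U).codRestrict M fun x => ⟨x, x.2, rfl⟩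
  have hg : Function.Surjective g := by
    rintro ⟨_, x, hx, rfl⟩
    exact ⟨⟨x, hx⟩, rfl⟩
  obtain ⟨s, hs'⟩ := g.exists_rightInverse_of_surjective (LinearMap.range_eq_top.2 hg)
  have hs1 : ∀ a : M, (N ^ m) (s a : V) = a := fun a =>
    congrArg (fun F : M →ₗ[k] M => ((F a : M) : V)) hs'
  let θ : M →ₗ[k] M →ₗ[k] k := ω.compl₁₂ (U.subtype ∘ₗ s) M.subtype
  have hθ : ∀ a b : M, θ a b = ω (s a) b := fun a b => rfl
  have h1 := Pool.Agent.Y114.GF.even_of_alt θ (fun a => by
    change ω (s a) a = 0
    have h2 := skew_pow ω hN m (s a) (s a)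
    rw [hs1 a] at h2
    have h3 := hs (s a) (a : V)
    have h4 : (2 : k) * ω (s a) a = 0 := by
      linear_combination h3 + ε * h2 + ω (s a) a * hm
    exact (mul_eq_zero.1 h4).resolve_left two_ne_zero) (fun b hb => by
    have hb' : ∀ x ∈ U, ω x b = 0 := by
      intro x hx
      have h2 := hb ⟨(N ^ m) x, x, hx, rfl⟩
      rw [hθ] at h2
      -- `ω (s a) b` with `a = N ^ m x`
      have h3 : ω x b = ω (s ⟨(N ^ m) x, x, hx, rfl⟩) b := by
        have h4 := skew_pow ω hN m (x - s ⟨(N ^ m) x, x, hx, rfl⟩) (s b)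
        rw [map_sub, hs1, sub_self, map_zero, LinearMap.zero_apply, hs1 b,
          map_sub, LinearMap.sub_apply] at h4
        have h5 : ((-1 : k) ^ m) ≠ 0 := pow_ne_zero _ (neg_ne_zero.2 one_ne_zero)
        exact sub_eq_zero.1 ((mul_eq_zero.1 h4.symm).resolve_left h5)
      rw [h3, h2]
    obtain ⟨x, hx, hxb⟩ := b.2
    refine Subtype.ext (hU b ?_ hb')
    rw [← hxb]
    exact pow_mem h m hx)
  exact h1

include hs in
/-- The number of Jordan blocks of a given length on a nondegenerate subspace is even for one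
parity of the length. -/
theorem even_jb [CharZero k] {N : End k V} (hN : ∀ x y, ω (N x) y + ω x (N y) = 0)
    {U : Submodule k V} (h : St N U) (hU : ∀ x ∈ U, (∀ y ∈ U, ω y x = 0) → x = 0) {m : ℕ}
    (hm : ε * (-1) ^ m = -1) : Even (jb N U m) := by
  have h1 := even_rk ω hs hN h hU hm
  have h2 := even_rk ω hs hN h hU (m := m + 2) (by rw [pow_add]; linear_combination hm)
  have h3 : Even (rk N U m + rk N U (m + 2)) := h1.add h2
  unfold jb
  obtain ⟨a, ha⟩ := h3
  rw [ha]
  exact ⟨a - rk N U (m + 1), by omega⟩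

include hs in
theorem jb_le_of_nondeg {N : End k V} (hN : ∀ x y, ω (N x) y + ω x (N y) = 0)
    {U : Submodule k V} (h : St N U) (hU : ∀ x ∈ U, (∀ y ∈ U, ω y x = 0) → x = 0) (m : ℕ) :
    jb N U m ≤ jb N ⊤ m := by
  have h1 := isCompl_orth ω hs hU
  rw [← h1.sup_eq_top, jb_sup h (orth_st ω hN h) h1.disjoint]
  exact Nat.le_add_right _ _

include hε hs in
/-- An isotropic subspace with a stable complement of its orthogonal space. -/
theorem jb_isotropic {N : End k V} (hN : ∀ x y, ω (N x) y + ω x (N y) = 0)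
    (hnd : ∀ u, (∀ v, ω v u = 0) → u = 0)
    {U : Submodule k V} (h : St N U) (hU : ∀ x ∈ U, ∀ y ∈ U, ω x y = 0)
    {Y : Submodule k V} (hY : St N Y) (hc : IsCompl (orth ω U) Y) (m : ℕ) :
    2 * jb N U m ≤ jb N ⊤ m := by
  classical
  have hε0 := eps_ne hε
  have hle : U ≤ orth ω U := fun x hx u hu => hU u hu x hx
  have hd : Disjoint U Y := hc.disjoint.mono_left hle
  -- the two maps
  let L : U →ₗ[k] Dual k Y := (LinearMap.domRestrict₁₂ ω U Y)
  have hL : ∀ (u : U) (y : Y), L u y = ω u y := fun u y => rfl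
  have hLinj : Function.Injective L := by
    rw [← LinearMap.ker_eq_bot, LinearMap.ker_eq_bot']
    intro u hu
    have hu' : ∀ y ∈ Y, ω u y = 0 := fun y hy => by
      have := congrArg (fun F : Dual k Y => F ⟨y, hy⟩) hu
      exact this
    refine Subtype.ext (hnd u fun v => ?_)
    rw [hs, mul_eq_zero]
    right
    have hv : v ∈ orth ω U ⊔ Y := by rw [hc.sup_eq_top]; trivial
    obtain ⟨a, ha, b, hb, rfl⟩ := Submodule.mem_sup.1 hv
    rw [map_add, ha u u.2, hu' b hb, add_zero]
  have hYinj : ∀ y ∈ Y, (∀ u ∈ U, ω u y = 0) → y = 0 := by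
    intro y hy hyu
    have h1 : y ∈ orth ω U ⊓ Y := ⟨hyu, hy⟩
    rwa [hc.inf_eq_bot, Submodule.mem_bot] at h1
  have hLsurj : Function.Surjective L := by
    let L' : Y →ₗ[k] Dual k U := (LinearMap.domRestrict₁₂ ω.flip Y U)
    have hL'inj : Function.Injective L' := by
      rw [← LinearMap.ker_eq_bot, LinearMap.ker_eq_bot']
      intro y hy
      refine Subtype.ext (hYinj y y.2 fun u hu => ?_)
      exact congrArg (fun F : Dual k U => F ⟨u, hu⟩) hy
    have h1 := LinearMap.finrank_le_finrank_of_injective hL'inj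
    rw [Subspace.dual_finrank_eq] at h1
    have h2 := LinearMap.finrank_le_finrank_of_injective hLinj
    rw [Subspace.dual_finrank_eq] at h2
    exact (LinearMap.injective_iff_surjective_of_finrank_eq_finrank (by
      rw [Subspace.dual_finrank_eq]; omega)).1 hLinj
  have hrk : ∀ m, rk N Y m = rk N U m := by
    intro m
    let NU : End k U := (N ^ m).restrict fun x hx => pow_mem h m hx
    let NY : End k Y := (N ^ m).restrict fun x hx => pow_mem hY m hx
    have e1 : rk N U m = finrank k (LinearMap.range NU) := by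
      have h2 : U.map (N ^ m) = (LinearMap.range NU).map U.subtype := by
        ext v
        constructor
        · rintro ⟨x, hx, rfl⟩
          exact ⟨NU ⟨x, hx⟩, ⟨_, rfl⟩, rfl⟩
        · rintro ⟨_, ⟨x, rfl⟩, rfl⟩
          exact ⟨x, x.2, rfl⟩
      unfold rk
      rw [h2]
      exact (Submodule.equivMapOfInjective U.subtype U.injective_subtype _).finrank_eq.symm
    have e2 : rk N Y m = finrank k (LinearMap.range NY) := by
      have h2 : Y.map (N ^ m) = (LinearMap.range NY).map Y.subtype := by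
        ext v
        constructor
        · rintro ⟨x, hx, rfl⟩
          exact ⟨NY ⟨x, hx⟩, ⟨_, rfl⟩, rfl⟩
        · rintro ⟨_, ⟨x, rfl⟩, rfl⟩
          exact ⟨x, x.2, rfl⟩
      unfold rk
      rw [h2]
      exact (Submodule.equivMapOfInjective Y.subtype Y.injective_subtype _).finrank_eq.symm
    have h2 : L ∘ₗ NU = ((-1 : k) ^ m) • (NY.dualMap ∘ₗ L) := by
      refine LinearMap.ext fun u => LinearMap.ext fun y => ?_
      change ω ((N ^ m) u) y = (-1 : k) ^ m * ω u ((N ^ m) y)
      exact skew_pow ω hN m u y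
    have h3 : finrank k (LinearMap.range (L ∘ₗ NU)) = finrank k (LinearMap.range NU) := by
      rw [LinearMap.range_comp]
      exact (Submodule.equivMapOfInjective L hLinj _).finrank_eq.symm
    have h4 : LinearMap.range (((-1 : k) ^ m) • (NY.dualMap ∘ₗ L)) =
        LinearMap.range NY.dualMap := by
      rw [LinearMap.range_smul _ _ (pow_ne_zero _ (neg_ne_zero.2 one_ne_zero))]
      rw [LinearMap.range_comp, LinearMap.range_eq_top.2 hLsurj, Submodule.map_top]
    rw [e1, e2, ← h3, h2, h4]
    exact (LinearMap.finrank_range_dualMap_eq_finrank_range NY).symm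
  have hjb : jb N Y m = jb N U m := by
    unfold jb
    rw [hrk, hrk, hrk]
  have hH : St N (U ⊔ Y) := by
    intro x hx
    obtain ⟨a, ha, b, hb, rfl⟩ := Submodule.mem_sup.1 hx
    rw [map_add]
    exact Submodule.add_mem_sup (h a ha) (hY b hb)
  have hHnd : ∀ x ∈ U ⊔ Y, (∀ y ∈ U ⊔ Y, ω y x = 0) → x = 0 := by
    intro x hx hxy
    obtain ⟨a, ha, b, hb, rfl⟩ := Submodule.mem_sup.1 hx
    have hb0 : b = 0 := by
      refine hYinj b hb fun u hu => ?_
      have h1 := hxy u (Submodule.mem_sup_left hu)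
      rwa [map_add, hU u hu a ha, zero_add] at h1
    subst hb0
    rw [add_zero] at hxy ⊢
    have h1 : (⟨a, ha⟩ : U) = 0 := by
      apply hLinj
      refine LinearMap.ext fun y => ?_
      rw [hL, map_zero, LinearMap.zero_apply, hs, hxy y (Submodule.mem_sup_right y.2),
        mul_zero]
    exact congrArg Subtype.val h1
  have h1 := jb_le_of_nondeg ω hs hN hH hHnd m
  rw [jb_sup h hY hd, hjb] at h1
  omega

end form

end

end Pool.Agent.H20.TC
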