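import Mathlib
import Pool.Agent.H20.TC.Form
import Pool.Agent.H20.TC.Defs
import Pool.Agent.H20.TB.Main

/-!
# Strong irreducibility from the lengths of the Jordan blocks, for symmetric and alternating forms
-/

set_option autoImplicit false
set_option linter.unusedSectionVars false

namespace Pool.Agent.H20.TC

open Module Polynomial Pool.Agent.H20.TB

noncomputable section

variable {ℓ : ℕ} [Fact ℓ.Prime] {V : Type} [AddCommGroup V] [Module ℚ_[ℓ] V]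
  [FiniteDimensional ℚ_[ℓ] V] {Γ : Type} [Group Γ] (ρ : Representation ℚ_[ℓ] Γ V)
  (χ : Γ →* ℚ_[ℓ]) (ω : V →ₗ[ℚ_[ℓ]] V →ₗ[ℚ_[ℓ]] ℚ_[ℓ]) {ε : ℚ}

/-- **Strong irreducibility.** -/
theorem strong (hε : ε = 1 ∨ ε = -1) (hs : ∀ u v, ω u v = (ε : ℚ_[ℓ]) * ω v u)
    (hnd : ∀ u, (∀ v, ω v u = 0) → u = 0)
    (hωρ : ∀ s u v, ω (ρ s u) (ρ s v) = χ s * ω u v)
    (hiso : ∀ U : Submodule ℚ_[ℓ] V, (∀ g, ∀ u ∈ U, ρ g u ∈ U) → (∀ x ∈ U, ∀ y ∈ U, ω x y = 0) →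
      U = ⊥)
    (h1 : ∀ d, 0 < d → 2 * d ≤ finrank ℚ_[ℓ] V → DegreeExcludes ρ d ∨
      ∃ (τ : Γ) (N : End ℚ_[ℓ] V) (D : ℕ),
      IsExp (ρ τ) N D ∧ χ τ = 1 ∧ ExcludesIsotropic (finrank ℚ_[ℓ] V) (jb N ⊤) d)
    (h2 : ∀ d, 0 < d → 2 * d ≤ finrank ℚ_[ℓ] V → (ε = -1 → Even d) → DegreeExcludes ρ d ∨
      ∃ (τ : Γ) (N : End ℚ_[ℓ] V) (D : ℕ),
      IsExp (ρ τ) N D ∧ χ τ = 1 ∧ ExcludesSigned ε (finrank ℚ_[ℓ] V) (jb N ⊤) d)
    (Δ : Subgroup Γ) (hΔ : Δ.FiniteIndex) (U : Submodule ℚ_[ℓ] V)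
    (hU : ∀ g ∈ Δ, ∀ u ∈ U, ρ g u ∈ U) : U = ⊥ ∨ U = ⊤ := by
  classical
  have hε' : (ε : ℚ_[ℓ]) = 1 ∨ (ε : ℚ_[ℓ]) = -1 := by
    rcases hε with h | h <;> rw [h]
    · left; norm_num
    · right; norm_num
  -- semisimplicity
  have hss : ∀ U : Submodule ℚ_[ℓ] V, (∀ s, ∀ u ∈ U, ρ s u ∈ U) →
      ∃ U' : Submodule ℚ_[ℓ] V, (∀ s, ∀ u ∈ U', ρ s u ∈ U') ∧ IsCompl U U' := by
    intro U hU
    have hU' : ∀ s, ∀ u ∈ orth ω U, ρ s u ∈ orth ω U := fun s =>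
      orth_rho ρ χ ω hωρ (Δ := ⊤) (fun g _ => hU g) s trivial
    refine ⟨orth ω U, hU', isCompl_orth ω hs fun x hx hxy => ?_⟩
    have h3 := hiso (U ⊓ orth ω U) (fun g u hu => ⟨hU g u hu.1, hU' g u hu.2⟩)
      (fun x hx y hy => hy.2 x hx.1)
    have h4 : x ∈ U ⊓ orth ω U := ⟨hx, hxy⟩
    rwa [h3, Submodule.mem_bot] at h4
  have hssΔ := Pool.Agent.TH116.SS.compl_finiteIndex ρ hss Δ hΔ
  have hNn : ∀ {u N : End ℚ_[ℓ] V} {D : ℕ}, IsExp u N D → ∀ U : Submodule ℚ_[ℓ] V, ∀ x ∈ U,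
      (N ^ finrank ℚ_[ℓ] V) x = 0 := by
    intro u N D hN U x _
    rw [pow_dim ⟨D, hN.1⟩, LinearMap.zero_apply]
  -- there are no isotropic stable subspaces
  have hisoΔ : ∀ R : Submodule ℚ_[ℓ] V, (∀ g ∈ Δ, ∀ u ∈ R, ρ g u ∈ R) →
      (∀ x ∈ R, ∀ y ∈ R, ω x y = 0) → R = ⊥ := by
    intro R hR hRi
    by_contra hne
    have hpos : 0 < finrank ℚ_[ℓ] R := by
      rw [Nat.pos_iff_ne_zero, Ne, Submodule.finrank_eq_zero]
      exact hne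
    have hle : R ≤ orth ω R := fun x hx u hu => hRi u hu x hx
    have h3 := finrank_orth ω hs hnd R
    have h4 := Submodule.finrank_mono hle
    rcases h1 (finrank ℚ_[ℓ] R) hpos (by omega) with h | ⟨τ, N, D, hN, hχ, hno⟩
    · exact degree_contra ρ hΔ hR h
    obtain ⟨Y, hY, hc⟩ := hssΔ (orth ω R) (orth_rho ρ χ ω hωρ hR)
    refine hno ⟨jb N R, fun m => ?_, sum_jb (st_of_exp ρ hΔ hN hR) (hNn hN R)⟩
    exact jb_isotropic ω hε' hs (skew_of_exp ρ χ ω hωρ hN hχ) hnd (st_of_exp ρ hΔ hN hR) hRi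
      (st_of_exp ρ hΔ hN hY) hc m
  -- stable subspaces are nondegenerate
  have hndΔ : ∀ R : Submodule ℚ_[ℓ] V, (∀ g ∈ Δ, ∀ u ∈ R, ρ g u ∈ R) →
      ∀ x ∈ R, (∀ y ∈ R, ω y x = 0) → x = 0 := by
    intro R hR x hx hxy
    have h3 := hisoΔ (R ⊓ orth ω R) (fun g hg u hu => ⟨hR g hg u hu.1,
      orth_rho ρ χ ω hωρ hR g hg u hu.2⟩) (fun x hx y hy => hy.2 x hx.1)
    have h4 : x ∈ R ⊓ orth ω R := ⟨hx, hxy⟩
    rwa [h3, Submodule.mem_bot] at h4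
  -- there are no small stable subspaces
  have hsmall : ∀ R : Submodule ℚ_[ℓ] V, (∀ g ∈ Δ, ∀ u ∈ R, ρ g u ∈ R) →
      2 * finrank ℚ_[ℓ] R ≤ finrank ℚ_[ℓ] V → R = ⊥ := by
    intro R hR hle
    by_contra hne
    have hpos : 0 < finrank ℚ_[ℓ] R := by
      rw [Nat.pos_iff_ne_zero, Ne, Submodule.finrank_eq_zero]
      exact hne
    have hnd' := hndΔ R hR
    have hev : ε = -1 → Even (finrank ℚ_[ℓ] R) := by
      intro he
      refine Pool.Agent.Y114.GF.even_of_alt (ω.domRestrict₁₂ R R) (fun v => ?_) ?_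
      · change ω v v = 0
        have h5 := hs v v
        rw [he] at h5
        push_cast at h5
        have h6 : (2 : ℚ_[ℓ]) * ω v v = 0 := by linear_combination h5
        exact (mul_eq_zero.1 h6).resolve_left two_ne_zero
      · intro u hu
        exact Subtype.ext (hnd' u u.2 fun v hv => hu ⟨v, hv⟩)
    rcases h2 (finrank ℚ_[ℓ] R) hpos hle hev with h | ⟨τ, N, D, hN, hχ, hno⟩
    · exact degree_contra ρ hΔ hR h
    have hsk := skew_of_exp ρ χ ω hωρ hN hχ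
    have hst := st_of_exp ρ hΔ hN hR
    refine hno ⟨jb N R, fun m => ⟨jb_le_of_nondeg ω hs hsk hst hnd' m,
      fun hm => even_jb ω hs hsk hst hnd' ?_⟩, sum_jb hst (hNn hN R)⟩
    exact_mod_cast congrArg (fun x : ℚ => (x : ℚ_[ℓ])) hm
  by_cases hle : 2 * finrank ℚ_[ℓ] U ≤ finrank ℚ_[ℓ] V
  · exact Or.inl (hsmall U hU hle)
  · right
    have h3 := finrank_orth ω hs hnd U
    have h4 := hsmall (orth ω U) (orth_rho ρ χ ω hωρ hU) (by omega)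
    rw [h4, finrank_bot, add_zero] at h3
    exact Submodule.eq_top_of_finrank_eq h3

theorem UnipotentExcludesSigned.exists_exp {d : ℕ} (h : UnipotentExcludesSigned ρ χ ε d) :
    ∃ (τ : Γ) (N : End ℚ_[ℓ] V) (D : ℕ), IsExp (ρ τ) N D ∧ χ τ = 1 ∧
      ExcludesSigned ε (finrank ℚ_[ℓ] V) (jb N ⊤) d := by
  obtain ⟨τ, N, hχ, ⟨D, hN, hexp⟩, hexc⟩ := h
  refine ⟨τ, N, D, isExp_of_sum hN hexp, hχ, ?_⟩
  have h4 : blocks N = jb N ⊤ := funext fun m => blocks_eq N m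
  rw [← h4]
  exact hexc

/-- Strong irreducibility. -/
theorem strong_of_excludes (hε : ε = 1 ∨ ε = -1) (hs : ∀ u v, ω u v = (ε : ℚ_[ℓ]) * ω v u)
    (hnd : ∀ u, (∀ v, ω v u = 0) → u = 0)
    (hωρ : ∀ s u v, ω (ρ s u) (ρ s v) = χ s * ω u v)
    (h1 : ∀ d, 0 < d → 2 * d ≤ finrank ℚ_[ℓ] V → DegreeExcludes ρ d ∨ PlaceExcludes ρ χ d)
    (h2 : ∀ d, 0 < d → 2 * d ≤ finrank ℚ_[ℓ] V → (ε = -1 → Even d) →
      DegreeExcludes ρ d ∨ UnipotentExcludesSigned ρ χ ε d)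
    (Δ : Subgroup Γ) (hΔ : Δ.FiniteIndex) (U : Submodule ℚ_[ℓ] V)
    (hU : ∀ g ∈ Δ, ∀ u ∈ U, ρ g u ∈ U) : U = ⊥ ∨ U = ⊤ := by
  refine strong ρ χ ω hε hs hnd hωρ ?_ ?_ ?_ Δ hΔ U hU
  · intro U hU hiso
    by_contra hne
    have hpos : 0 < finrank ℚ_[ℓ] U := by
      rw [Nat.pos_iff_ne_zero, Ne, Submodule.finrank_eq_zero]
      exact hne
    have hle : U ≤ orth ω U := fun x hx u hu => hiso u hu x hx
    have hdim := finrank_orth ω hs hnd U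
    have hdim' := Submodule.finrank_mono hle
    rcases h1 (finrank ℚ_[ℓ] U) hpos (by omega) with h | h
    · exact degree_contra ρ (Δ := ⊤) inferInstance (fun g _ => hU g) h
    · exact h.contra ρ χ ω hnd hωρ U hU hiso
  · intro d hd hle
    rcases h1 d hd hle with h | h
    · exact Or.inl h
    · exact Or.inr (h.exists_exp ρ χ)
  · intro d hd hle hev
    rcases h2 d hd hle hev with h | h
    · exact Or.inl h
    · exact Or.inr (h.exists_exp ρ χ)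

end

end Pool.Agent.H20.TC
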