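import Mathlib
import Pool.Agent.H4.HW.Main
import Pool.Agent.H20.TC.Strong
import Pool.Agent.H20.TC.Commut

/-!
# The representation on a summand
-/

set_option autoImplicit false
set_option linter.unusedSectionVars false

namespace Pool.Agent.H20.TC

open Module Polynomial Pool.Agent.H20.TB Pool.Agent.H4.HW

variable {T B : Type} [Fintype T] [DecidableEq T] (M : Betti T B) {ℓ : ℕ} [Fact ℓ.Prime]
  {V : Type} [AddCommGroup V] [Module ℚ_[ℓ] V] {Γ : Type} [Group Γ]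

open Matrix

/-- the form on the summand -/
noncomputable def form (j : V →ₗ[ℚ_[ℓ]] (T → ℚ_[ℓ])) : V →ₗ[ℚ_[ℓ]] V →ₗ[ℚ_[ℓ]] ℚ_[ℓ] :=
  LinearMap.compl₁₂ (Matrix.toBilin' (M.EF ℚ_[ℓ])) j j

theorem form_apply (j : V →ₗ[ℚ_[ℓ]] (T → ℚ_[ℓ])) (u v : V) :
    form M j u v = j u ⬝ᵥ (M.EF ℚ_[ℓ]) *ᵥ j v := by
  rw [form, LinearMap.compl₁₂_apply, Matrix.toBilin'_apply']

variable {M}

section on

variable {ρ : Γ →* Matrix T T ℚ_[ℓ]} {b : B} {j : V →ₗ[ℚ_[ℓ]] (T → ℚ_[ℓ])}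
    {r : Representation ℚ_[ℓ] Γ V} {χ : Γ →* ℚ_[ℓ]} (H : OnSummand M ρ b j r χ)

include H

theorem OnSummand.z (x : V) (t : T) (ht : M.blk t ≠ b) : j x t = 0 :=
  (H.mem (j x)).1 ⟨x, rfl⟩ t ht

theorem form_sign {ε : ℚ} (hε : ε = 1 ∨ ε = -1)
    (h : ∀ s t, M.blk s = b → M.E t s = ε * M.E s t) (u v : V) :
    form M j u v = (ε : ℚ_[ℓ]) * form M j v u := by
  have h2 : ε * ε = 1 := by rcases hε with h | h <;> rw [h] <;> norm_num
  rw [form_apply, form_apply]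
  simp only [dotProduct, mulVec]
  rw [Finset.mul_sum]
  simp only [Finset.mul_sum]
  rw [Finset.sum_comm]
  refine Finset.sum_congr rfl fun t _ => Finset.sum_congr rfl fun s _ => ?_
  by_cases hs : M.blk s = b
  · have h3 : M.E s t = ε * M.E t s := by
      rw [h s t hs, ← mul_assoc, h2, one_mul]
    have h4 : M.EF ℚ_[ℓ] s t = (ε : ℚ_[ℓ]) * M.EF ℚ_[ℓ] t s := by
      rw [Betti.EF, map_apply, map_apply, h3, map_mul]
      rfl
    rw [h4]
    ring
  · rw [H.z u s hs]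
    ring

theorem form_nondeg (hu : IsUnit M.E.det) (hE : IsBlock M.blk M.E) (u : V)
    (h : ∀ v, form M j v u = 0) : u = 0 := by
  have h1 : (M.EF ℚ_[ℓ]) *ᵥ j u ∈ space ℚ_[ℓ] M.blk b :=
    act_space (M.EF_block hE) (H.z u)
  have h2 : (M.EF ℚ_[ℓ]) *ᵥ j u = 0 := by
    funext t
    by_cases ht : M.blk t = b
    · obtain ⟨x, hx⟩ := (H.mem (Pi.single t 1)).2 fun s hs => by
        rw [Pi.single_eq_of_ne]
        rintro rfl
        exact hs ht
      have h3 := h x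
      rw [form_apply, hx, single_one_dotProduct] at h3
      exact h3
    · exact h1 t ht
  apply H.inj
  rw [map_zero]
  exact Matrix.eq_zero_of_mulVec_eq_zero (M.EF_unit hu).ne_zero h2

theorem form_sim (hp : ∀ g, ∀ s t, M.blk s = b →
      ((ρ g)ᵀ * M.EF ℚ_[ℓ] * ρ g) s t = (ρ g M.o M.o) ^ (M.wt b) * M.EF ℚ_[ℓ] s t)
    (g : Γ) (u v : V) : form M j (r g u) (r g v) = χ g * form M j u v := by
  rw [form_apply, form_apply, H.rep, H.rep, H.sim]
  have h1 : (ρ g *ᵥ j u) ⬝ᵥ M.EF ℚ_[ℓ] *ᵥ ρ g *ᵥ j v =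
      j u ⬝ᵥ ((ρ g)ᵀ * M.EF ℚ_[ℓ] * ρ g) *ᵥ j v := by
    rw [← vecMul_transpose, ← dotProduct_mulVec, mulVec_mulVec, mulVec_mulVec, mul_assoc]
  rw [h1]
  simp only [dotProduct, mulVec]
  rw [Finset.mul_sum]
  refine Finset.sum_congr rfl fun s _ => ?_
  by_cases hs : M.blk s = b
  · rw [Finset.mul_sum, Finset.mul_sum, Finset.mul_sum]
    refine Finset.sum_congr rfl fun t _ => ?_
    rw [hp g s t hs]
    ring
  · rw [H.z u s hs]
    ring

end on

theorem NotMultiple.imp [FiniteDimensional ℚ_[ℓ] V]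
    {ρ : Representation ℚ_[ℓ] Γ V} {r : ℕ} (h : NotMultiple ρ r) :
    (∃ (τ : Γ) (N : End ℚ_[ℓ] V) (D m : ℕ), IsExp (ρ τ) N D ∧ ¬ r ∣ jb N ⊤ m) ∨
      ∃ γ : Γ, ∀ e : ℕ, 0 < e → ∃ P : ℚ_[ℓ][X],
        ¬ r ∣ finrank ℚ_[ℓ] (LinearMap.ker (aeval (ρ (γ ^ e)) P)) := by
  rcases h with ⟨τ, N, m, ⟨D, hN, hexp⟩, hm⟩ | h
  · left
    rw [blocks_eq] at hm
    exact ⟨τ, N, D, m, isExp_of_sum hN hexp, hm⟩
  · exact Or.inr h

/-- The Tate conjecture for the endomorphisms. -/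
theorem IsControlled.tateEnd [TopologicalSpace Γ] [IsTopologicalGroup Γ]
    [CompactSpace Γ] {ρ : Γ →* Matrix T T ℚ_[ℓ]} (hu : IsUnit M.E.det) (hE : IsBlock M.blk M.E)
    {b : B} (hp : ∀ g, ∀ s t, M.blk s = b →
      ((ρ g)ᵀ * M.EF ℚ_[ℓ] * ρ g) s t = (ρ g M.o M.o) ^ (M.wt b) * M.EF ℚ_[ℓ] s t)
    (h : IsControlled M ρ b) : M.TateEnd b ρ := by
  obtain ⟨V, _, _, _, j, r, χ, ε, H, ⟨hε, hsym⟩, hC⟩ := h
  have hirr : ∀ (Δ : Subgroup Γ) (_ : Δ.FiniteIndex) (U : Submodule ℚ_[ℓ] V)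
      (_ : ∀ g ∈ Δ, ∀ u ∈ U, r g u ∈ U), U = ⊥ ∨ U = ⊤ := fun Δ hΔ U hU =>
    strong_of_excludes r χ (form M j) hε (form_sign H hε hsym)
      (fun u hu' => form_nondeg H hu hE u hu') (form_sim H hp) hC.iso hC.nondeg Δ hΔ U hU
  have hj : ∀ x, j x ∈ space ℚ_[ℓ] M.blk b := fun x => H.z x
  refine ⟨fun W hW hst => ?_, fun U hU C hC' hcomm => ?_⟩
  · have h1 := hirr (⊤ : Subgroup Γ) inferInstance
      (W.comap j) (fun g _ u hu' => by
        rw [Submodule.mem_comap, H.rep]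
        exact hst g _ hu')
    rcases h1 with h1 | h1
    · left
      rw [eq_bot_iff]
      intro y hy
      obtain ⟨x, rfl⟩ := (H.mem y).2 (hW hy)
      have h2 : x ∈ W.comap j := hy
      rw [h1, Submodule.mem_bot] at h2
      rw [h2, map_zero]
      exact Submodule.zero_mem _
    · right
      refine le_antisymm hW fun y hy => ?_
      obtain ⟨x, rfl⟩ := (H.mem y).2 hy
      have h2 : x ∈ W.comap j := by rw [h1]; trivial
      exact h2
  · have hfin : Finite (Γ ⧸ U) := U.quotient_finite_of_isOpen hU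
    have hfi : U.FiniteIndex := Subgroup.finiteIndex_of_finite_quotient
    have hst : ∀ x, ∃ y, j y = C *ᵥ j x := by
      intro x
      refine (H.mem _).2 fun s hs => ?_
      simp only [mulVec, dotProduct]
      refine Finset.sum_eq_zero fun t _ => ?_
      by_cases h0 : C s t = 0
      · rw [h0, zero_mul]
      · exact absurd (hC' s t h0).1 hs
    choose f hf using hst
    let A : End ℚ_[ℓ] V :=
      { toFun := f
        map_add' := fun x y => H.inj (by rw [hf, map_add, map_add, mulVec_add, hf, hf])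
        map_smul' := fun c x => H.inj (by
          rw [hf, RingHom.id_apply, map_smul, map_smul, mulVec_smul, hf]) }
    have hA : ∀ x, j (A x) = C *ᵥ j x := hf
    obtain ⟨c, hc⟩ := commutant r hfi (hirr U hfi)
      (fun p hp' hpd => (hC.scalars p hp' hpd).imp) A (by
        intro g hg x
        apply H.inj
        rw [hA, H.rep, H.rep, hA, mulVec_mulVec, mulVec_mulVec, hcomm g hg])
    refine ⟨c, fun y hy => ?_⟩
    obtain ⟨x, rfl⟩ := (H.mem y).2 hy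
    rw [← hA, hc, map_smul]

end Pool.Agent.H20.TC
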