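import Mathlib
import Pool.Agent.H20.TC.Defs

/-!
# Definitions: the conjectures for partial sums
-/

set_option autoImplicit false

namespace Pool.Agent.H20.TC

open Matrix Pool.Agent.H4.HW

variable {T B : Type} [Fintype T] [DecidableEq T] (M : Betti T B) {ℓ : ℕ} [Fact ℓ.Prime]
  {Γ : Type} [Group Γ]

open scoped Classical in
/-- the Mumford-Tate conjecture for the sum of the `M_b`, `b ∈ J` -/
def MTPart (J : Set B) (ρ : Γ →* Matrix T T ℚ_[ℓ]) : Prop :=
  MumfordTate (M.part J M.D) (fun g => M.part J (ρ g))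

open scoped Classical in
/-- the motivated Mumford-Tate conjecture for the sum of the `M_b`, `b ∈ J` -/
def MotPart (J : Set B) (𝔪 : Submodule ℚ (Matrix T T ℚ)) (ρ : Γ →* Matrix T T ℚ_[ℓ]) : Prop :=
  Motivated (M.part J M.D) (M.parts J 𝔪) (fun g => M.part J (ρ g))

end Pool.Agent.H20.TC
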